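import Pool.Agent.Q143.AR.Clique

/-!
# Presentations with relators over cliques which are closed under killing letters

`Closed C` (`Pool.Agent.Y462.SS.Base`): the class `C` of groups contains `ℤ` and is closed under
groups that embed, finite products, free products, overgroups of finite index and colimits of directed
systems.  `ExtClosed C` (`Pool.Agent.Q152.WP.Perm`): if `G` maps onto a group `Q` of `C`, and the
kernel and the preimages of all infinite cyclic subgroups of `Q` are in `C`, then `G` is in `C`.  These
properties are known for the class of the groups which satisfy the `K`- and `L`-theoretic
Farrell–Jones conjecture with coefficients in additive categories and finite wreath products.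

`Λ` is a graph with vertex set `V`, `X` a set of letters, `p : X → V` a map, `rels` a set of words in the
letters.  `CliqueRel Λ p rels`: for each relator there is a clique `σ` of `Λ` such that the relator is
a word in the letters over `σ`; and for each relator and each set `S` of vertices, if the letters
which are not over `S` are replaced by `1`, the result is `1` or a relator.  `gS p rels S` is the
subgroup of the presented group which is generated by the letters over `S`.

Examples: even Artin groups, where the relators `(v w) ^ k = (w v) ^ k` become trivial when `v` or `w`
is replaced by `1`; the same with powers of generators as additional relators; graph products; all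
presentations in which each relator is a word over a clique which becomes trivial when one of the
vertices of the clique is killed, for example iterated commutators.

Proof.  If two vertices `v` and `u` of a finite set `S` of vertices are not adjacent, the subgroup over `S`
is the amalgamated product of the subgroups over `S ∖ {v}` and over the star of `v` in `S`, over
the subgroup of the link, which is a retract of the subgroup of the star.
-/

set_option autoImplicit false

namespace Pool.Agent.Results.MP_8a3537_gt.CliqueRelators

open Pool.Agent.Y462.SS Pool.Agent.Q152.WP Pool.Agent.Q143.AR

/-- Let `C` be a class of groups with the closure properties `Closed C` and `ExtClosed C`, and let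
`rels` be a set of relators over cliques of a graph `Λ` which is closed under killing letters
(`CliqueRel`).
(1) The presented group is in `C` if and only if the subgroups generated by the letters over the finite
cliques of `Λ` are in `C`.
(2) The presented group is torsion-free if and only if these subgroups are torsion-free. -/
theorem result (C : ∀ (G : Type) [Group G], Prop) (hC : Closed C) (hE : ExtClosed C)
    (V X : Type) (Λ : SimpleGraph V) (p : X → V) (rels : Set (FreeGroup X))
    (hR : CliqueRel Λ p rels) :
    (C (PresentedGroup rels) ↔
      ∀ σ : Finset V, Λ.IsClique (σ : Set V) → C (gS p rels (σ : Set V))) ∧
    ((∀ g : PresentedGroup rels, IsOfFinOrder g → g = 1) ↔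
      ∀ σ : Finset V, Λ.IsClique (σ : Set V) →
        ∀ g : gS p rels (σ : Set V), IsOfFinOrder g → g = 1) :=
  ⟨clique_mem hC hE hR, clique_tf hR⟩

end Pool.Agent.Results.MP_8a3537_gt.CliqueRelators
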