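import Pool.Agent.Q152.EM.Mit

/-!
# Embedding Farrell–Jones groups in acyclic Farrell–Jones groups

`Closed C` (`Pool.Agent.Y462.SS.Base`): the class `C` of groups contains `ℤ` and is closed under
groups that embed, finite products, free products, overgroups of finite index and colimits of directed
systems.  `ExtClosed C`: if `G` maps onto a group `Q` of `C`, and the kernel and the preimages of all
infinite cyclic subgroups of `Q` are in `C`, then `G` is in `C`.  These properties are known for the
class of the groups which satisfy the K- and L-theoretic Farrell–Jones conjecture with coefficients
and finite wreath products.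

`Mitotic M`: for each finitely generated subgroup `K` of `M` there are `s, d` in `M` with
`d a d⁻¹ = a (s a s⁻¹)` for `a` in `K`, and such that `s K s⁻¹` commutes with `K` (Baumslag, Dyer and
Heller).  Mitotic groups are acyclic (Baumslag, Dyer and Heller).

Proof.  Let the free group `F` with the basis `s, d` act on `ℕ ⊔ ℕ ⊔ ℕ` such that `s` exchanges the first
two copies and `d` maps the first copy onto the union of the first two.  The functions
`ℕ ⊔ ℕ ⊔ ℕ → G` with finitely many values extended by `F` contain a mitosis of `G`, the functions which
are constant on the first copy and trivial on the others being identified with `G`; they form a group of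
the class (see `MP_2a547c_gt.FiniteValued` for the proof of this).  The union of the iterated mitoses is
the group `M`.
-/

set_option autoImplicit false

namespace Pool.Agent.Results.MP_8a3537_gt.MitoticEmbedding

open Pool.Agent.Y462.SS Pool.Agent.Q152.WP Pool.Agent.Q152.EM

/-- Every group `G` embeds in a mitotic group `M` such that `M` is in each class of groups `C` with the
closure properties `Closed C` and `ExtClosed C` which contains `G`.  If `G` is torsion-free, then so is
`M`, and if `G` is countable, then so is `M`. -/
theorem result (G : Type) [Group G] : ∃ (M : Type) (_ : Group M) (k : G →* M),
    Function.Injective k ∧ Mitotic M ∧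
    (∀ C : ∀ (G : Type) [Group G], Prop, Closed C → ExtClosed C → C G → C M) ∧
    ((∀ u : G, IsOfFinOrder u → u = 1) → ∀ u : M, IsOfFinOrder u → u = 1) ∧
    (Countable G → Countable M) :=
  mitotic_embed G

end Pool.Agent.Results.MP_8a3537_gt.MitoticEmbedding
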