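import Pool.Agent.Q152.EM.Multi

/-!
# HNN extensions of finite powers of Farrell–Jones groups along partial maps

`Closed C` (`Pool.Agent.Y462.SS.Base`): the class `C` of groups contains `ℤ` and is closed under
groups that embed, finite products, free products, overgroups of finite index and colimits of directed
systems.  `ExtClosed C`: if `G` maps onto a group `Q` of `C`, and the kernel and the preimages of all
infinite cyclic subgroups of `Q` are in `C`, then `G` is in `C`.  These properties are known for the
class of the groups which satisfy the K- and L-theoretic Farrell–Jones conjecture with coefficients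
and finite wreath products.

For a partial map `σ` of a set `k` onto a set `m` (a function `k → Option m`) let
`pb σ : P ^ m → P ^ k`, `(pb σ v) a = v (σ a)` if `σ a` is defined, and `1` if it is not.  This is
injective; `pbe P σ τ` is the isomorphism of the image of `pb σ` with the image of `pb τ` which maps
`pb σ v` to `pb τ v`.  `MHN φ` is the HNN extension of a group with several stable letters: the
amalgamated free product over the base group of its HNN extensions with one stable letter.

So `MHN (fun i => pbe P (σ i) (τ i))` is the group generated by `P ^ k` and elements `t i` with the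
relations `(t i) (pb (σ i) v) (t i)⁻¹ = pb (τ i) v`, `v` in `P ^ m(i)`.  For `k` with two elements and
the pairs `(v, 1) ↦ (1, v)`, `(v, 1) ↦ (v, v)` this is the mitosis
`⟨P, s, d | [P, s P s⁻¹] = 1, d p d⁻¹ = p (s p s⁻¹)⟩` of `P` of Baumslag, Dyer and Heller.

Proof.  There are permutations `T i` of `(k ∪ {∗}) × ℕ` such that the first coordinates `a` of a point and
`b` of its image satisfy `σ i a = τ i b`.  They define a homomorphism of the HNN extension to the group of
the functions `(k ∪ {∗}) × ℕ → P` with finitely many values extended by a free group, which is injective
on the base group.  That group is in the class (see `MP_2a547c_gt.FiniteValued`).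
-/

set_option autoImplicit false

namespace Pool.Agent.Results.MP_8a3537_gt.PowersAlongPartialMaps

open Pool.Agent.Y462.SS Pool.Agent.Q152.WP Pool.Agent.Q152.EM

/-- Let `k` be a finite set and let `σ i`, `τ i` be partial maps of `k` onto sets `m i`, for `i` in any
nonempty set.  Let `G` be the HNN extension of `P ^ k` with stable letters `t i` which conjugate
`pb (σ i) v` to `pb (τ i) v`.
(1) `G` is in every class of groups `C` with the closure properties `Closed C` and `ExtClosed C` which
contains `P`.
(2) `G` is torsion-free if `P` is. -/
theorem result (ι k : Type) [Nonempty ι] [Finite k] (m : ι → Type)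
    (σ τ : ∀ i, k → Option (m i)) (hσ : ∀ i z, ∃ a, σ i a = some z)
    (hτ : ∀ i z, ∃ a, τ i a = some z) (P : Type) [Group P] :
    (∀ C : ∀ (G : Type) [Group G], Prop, Closed C → ExtClosed C → C P →
      C (MHN (fun i => pbe P (σ i) (τ i) (hσ i) (hτ i)))) ∧
    ((∀ u : P, IsOfFinOrder u → u = 1) →
      ∀ g : MHN (fun i => pbe P (σ i) (τ i) (hσ i) (hτ i)), IsOfFinOrder g → g = 1) :=
  powers_mem m σ τ hσ hτ P

end Pool.Agent.Results.MP_8a3537_gt.PowersAlongPartialMaps
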