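import Pool.Agent.Q105.FJ.VC

/-!
# Embedding in verbally complete groups inside the Farrell–Jones class

`Closed C` (`Pool.Agent.Y462.SS.Base`): the class `C` of groups contains `ℤ` and is closed under
groups that embed, finite products, free products, overgroups of finite index and colimits of directed
systems with arbitrary structure maps.  `ExtClosed C` (`Pool.Agent.Q152.WP.Perm`): if `G` maps onto a
group `Q` of `C`, and the kernel and the preimages of all infinite cyclic subgroups of `Q` are in `C`,
then `G` is in `C`.  All these properties are known for the class of the groups which satisfy the
`K`- and `L`-theoretic Farrell–Jones conjecture with coefficients in additive categories and finite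
wreath products.

Construction.  For a torsion-free group `G`, an element `w ≠ 1` and a nontrivial word `v` let `G(w, v)` be
the group obtained from `G` by adjoining free generators `x` and the relation `v(x) = w`, which is the
amalgamated product of `G` and a free group over the infinite cyclic group `w = v(x)`.  Let `M` be
a nilpotent quotient of the free group in which `v(x)` is central of infinite order.  The amalgamated
product of `G` and `M` over `w = v(x)` is in `C` if `G` is, because the amalgamated subgroup is central in
`M`, and the homomorphism of `G(w, v)` to it is injective on `G`; hence `G(w, v)` is in `C`.
One adjoins solutions of all these equations (a directed colimit), and takes the union of the sequence of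
groups obtained by iterating the construction.
-/

set_option autoImplicit false

namespace Pool.Agent.Results.MP_8a3537_gt.VerballyComplete

open Pool.Agent.Y462.SS Pool.Agent.Q152.WP

/-- Every torsion-free group `G` embeds in a torsion-free group `D` which is verbally complete (each
equation `u(x₁, x₂, …) = d` with a nontrivial word `u` without constants and an element `d` of `D` has a
solution in `D`), such that `D` belongs to every class `C` of groups with the closure properties
`Closed C` and `ExtClosed C` which contains `G`; the group `D` is countable if `G` is. -/
theorem result (G : Type) [Group G] (hG : ∀ g : G, IsOfFinOrder g → g = 1) :
    ∃ (D : Type) (_ : Group D) (k : G →* D), Function.Injective k ∧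
      (∀ (u : FreeGroup ℕ) (d : D), u ≠ 1 → ∃ x : ℕ → D, FreeGroup.lift x u = d) ∧
      (∀ C : ∀ (G : Type) [Group G], Prop, Closed C → ExtClosed C → C G → C D) ∧
      (∀ d : D, IsOfFinOrder d → d = 1) ∧ (Countable G → Countable D) :=
  Pool.Agent.Q105.FJ.vc_embed G hG

end Pool.Agent.Results.MP_8a3537_gt.VerballyComplete
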